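import Mathlib
import Pool.Agent.W179.Erdos

/-!
# Density of the homomorphism order of finite digraphs above `K₂`

Digraphs are given as finite sets of words of length two over `ℕ`.
-/

set_option autoImplicit false

namespace Pool.Agent.R572.GF

open Pool.Agent.W179.Erdos

/-- letter-to-letter maps that send the words of `L1` to words of `L2` -/
def Hom (L1 L2 : Set (List ℕ)) : Prop := ∃ φ : ℕ → ℕ, ∀ w ∈ L1, w.map φ ∈ L2

theorem Hom.trans {L1 L2 L3 : Set (List ℕ)} (h : Hom L1 L2) (h' : Hom L2 L3) : Hom L1 L3 := by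
  obtain ⟨φ, hφ⟩ := h
  obtain ⟨ψ, hψ⟩ := h'
  refine ⟨ψ ∘ φ, fun w hw => ?_⟩
  rw [← List.map_map]
  exact hψ _ (hφ w hw)

/-- small induced subgraphs of graphs without short cycles are two-colourable -/
theorem small_two {V : Type} {H : SimpleGraph V} {g : ℕ} (hH : ∀ l f, FCyc H l f → g < l)
    (W : Finset V) (hW : W.card ≤ g) : (H.induce (W : Set V)).Colorable 2 := by
  apply SimpleGraph.IsAcyclic.colorable_two
  intro v c hc
  have h1 : FCyc H c.length fun i => (c.getVert i : (W : Set V)).1 := by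
    refine ⟨hc.three_le_length, ?_, ?_, ?_⟩
    · intro i hi j hj hij
      exact hc.getVert_injOn' (by simp only [Set.mem_setOf_eq]; omega)
        (by simp only [Set.mem_setOf_eq]; omega) (Subtype.ext hij)
    · intro i hi
      exact c.adj_getVert_succ (by omega)
    · have h2 := c.adj_getVert_succ (show c.length - 1 < c.length by
        have := hc.three_le_length; omega)
      have h3 : c.length - 1 + 1 = c.length := by have := hc.three_le_length; omega
      rw [h3, c.getVert_length] at h2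
      have h4 : c.getVert 0 = v := c.getVert_zero
      rw [h4]
      exact h2
  have h2 := hH _ _ h1
  have h3 : c.length ≤ W.card := by
    have h4 : Set.InjOn (fun i => c.getVert i) (Finset.range c.length : Set ℕ) := by
      intro i hi j hj hij
      simp only [Finset.coe_range, Set.mem_Iio] at hi hj
      exact hc.getVert_injOn' (by simp only [Set.mem_setOf_eq]; omega)
        (by simp only [Set.mem_setOf_eq]; omega) hij
    have h5 := Finset.card_le_card_of_injOn (s := Finset.range c.length)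
      (t := W) (fun i => (c.getVert i).1) (fun i _ => (c.getVert i).2)
      (fun i hi j hj hij => h4 hi hj (Subtype.ext hij))
    rwa [Finset.card_range] at h5
  omega

/-- the letters of a finite set of words -/
def letters (L : Finset (List ℕ)) : Finset ℕ := L.biUnion fun w => w.toFinset

theorem mem_letters {L : Finset (List ℕ)} {a : ℕ} : a ∈ letters L ↔ ∃ w ∈ L, a ∈ w := by
  simp [letters]

/-- the letters of the product part -/
def pr (a k : ℕ) : ℕ := 2 * Nat.pair a k + 1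

theorem density (L1 L2 : Finset (List ℕ)) (h1 : ∀ w ∈ L1, w.length = 2)
    (h2 : ∀ w ∈ L2, w.length = 2) (h12 : Hom L1 L2) (h21 : ¬ Hom L2 L1)
    (hK : Hom {[0, 1], [1, 0]} L1) :
    ∃ L3 : Finset (List ℕ), (∀ w ∈ L3, w.length = 2) ∧ Hom L1 L3 ∧ Hom L3 L2 ∧ ¬ Hom L3 L1 ∧
      ¬ Hom L2 L3 := by
  classical
  obtain ⟨θ, hθ⟩ := hK
  have hθ1 : [θ 0, θ 1] ∈ L1 := hθ [0, 1] (by simp)
  have hθ2 : [θ 1, θ 0] ∈ L1 := hθ [1, 0] (by simp)
  obtain ⟨V, _, K, hcol, hcyc⟩ := erdos
    (Fintype.card (letters L2 → letters L1)) (letters L2).card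
  obtain ⟨ι, hι⟩ : ∃ ι : V → ℕ, Function.Injective ι :=
    ⟨fun v => (Fintype.equivFin V v : ℕ), fun v w h =>
      (Fintype.equivFin V).injective (Fin.ext h)⟩
  let P : Finset (List ℕ) := L2.biUnion fun w =>
    (Finset.univ.filter fun t : V × V => K.Adj t.1 t.2).image
      fun t => [pr (w.getD 0 0) (ι t.1), pr (w.getD 1 0) (ι t.2)]
  have hP : ∀ w, w ∈ P ↔ ∃ a b k k', [a, b] ∈ L2 ∧ K.Adj k k' ∧ w = [pr a (ι k), pr b (ι k')] := by
    intro w
    simp only [P, Finset.mem_biUnion, Finset.mem_image, Finset.mem_filter, Finset.mem_univ,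
      true_and, Prod.exists]
    constructor
    · rintro ⟨u, hu, k, k', hk, rfl⟩
      obtain ⟨a, b, rfl⟩ := List.length_eq_two.1 (h2 u hu)
      exact ⟨a, b, k, k', hu, hk, rfl⟩
    · rintro ⟨a, b, k, k', hu, hk, rfl⟩
      exact ⟨[a, b], hu, k, k', hk, rfl⟩
  let L3 : Finset (List ℕ) := L1.image (fun w => w.map (2 * ·)) ∪ P
  have hL3 : ∀ w, w ∈ L3 ↔ (∃ a b, [a, b] ∈ L1 ∧ w = [2 * a, 2 * b]) ∨
      ∃ a b k k', [a, b] ∈ L2 ∧ K.Adj k k' ∧ w = [pr a (ι k), pr b (ι k')] := by
    intro w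
    simp only [L3, Finset.mem_union, hP, Finset.mem_image]
    constructor
    · rintro (⟨u, hu, rfl⟩ | h)
      · obtain ⟨a, b, rfl⟩ := List.length_eq_two.1 (h1 u hu)
        exact Or.inl ⟨a, b, hu, rfl⟩
      · exact Or.inr h
    · rintro (⟨a, b, hu, rfl⟩ | h)
      · exact Or.inl ⟨[a, b], hu, rfl⟩
      · exact Or.inr h
  refine ⟨L3, ?_, ?_, ?_, ?_, ?_⟩
  · intro w hw
    rcases (hL3 w).1 hw with ⟨a, b, _, rfl⟩ | ⟨a, b, k, k', _, _, rfl⟩ <;> rfl
  · refine ⟨fun a => 2 * a, fun w hw => ?_⟩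
    obtain ⟨a, b, rfl⟩ := List.length_eq_two.1 (h1 w hw)
    exact (hL3 _).2 (Or.inl ⟨a, b, hw, rfl⟩)
  · obtain ⟨φ, hφ⟩ := h12
    refine ⟨fun x => if x % 2 = 0 then φ (x / 2) else (Nat.unpair (x / 2)).1, fun w hw => ?_⟩
    rcases (hL3 w).1 hw with ⟨a, b, hab, rfl⟩ | ⟨a, b, k, k', hab, _, rfl⟩
    · have := hφ _ hab
      simpa using this
    · have e1 : ∀ a x, pr a x % 2 ≠ 0 := fun a x => by unfold pr; omega
      have e2 : ∀ a x, pr a x / 2 = Nat.pair a x := fun a x => by unfold pr; omega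
      simpa [e1, e2] using hab
  · rintro ⟨F, hF⟩
    have key : ∀ a b k k', [a, b] ∈ L2 → K.Adj k k' →
        [F (pr a (ι k)), F (pr b (ι k'))] ∈ L1 := by
      intro a b k k' hab hk
      have := hF [pr a (ι k), pr b (ι k')] ((hL3 _).2 (Or.inr ⟨a, b, k, k', hab, hk, rfl⟩))
      simpa using this
    have hθ0 : θ 0 ∈ letters L1 := mem_letters.2 ⟨_, hθ1, by simp⟩
    apply hcol
    let c : V → (letters L2 → letters L1) := fun k a =>
      if h : F (pr a (ι k)) ∈ letters L1 then ⟨_, h⟩ else ⟨θ 0, hθ0⟩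
    have hc : ∀ {k k' : V}, K.Adj k k' → c k ≠ c k' := by
      intro k k' hk hcc
      apply h21
      refine ⟨fun a => F (pr a (ι k)), fun w hw => ?_⟩
      obtain ⟨a, b, rfl⟩ := List.length_eq_two.1 (h2 w hw)
      have hb : b ∈ letters L2 := mem_letters.2 ⟨_, hw, by simp⟩
      have h3 := key a b k k' hw hk
      have h4 := key a b k' k hw hk.symm
      have h5 : F (pr b (ι k')) ∈ letters L1 := mem_letters.2 ⟨_, h3, by simp⟩
      have h6 : F (pr b (ι k)) ∈ letters L1 := mem_letters.2 ⟨_, h4, by simp⟩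
      have h7 := congrArg Subtype.val (congrFun hcc ⟨b, hb⟩)
      simp only [c, dif_pos h5, dif_pos h6] at h7
      change [F (pr a (ι k)), F (pr b (ι k))] ∈ L1
      rw [h7]
      exact h3
    have hcol' : K.Coloring (letters L2 → letters L1) :=
      SimpleGraph.Coloring.mk c (fun h => hc h)
    exact hcol'.colorable
  · rintro ⟨F, hF⟩
    apply h21
    have key : ∀ a b, [a, b] ∈ L2 → (∃ x y, [x, y] ∈ L1 ∧ F a = 2 * x ∧ F b = 2 * y) ∨
        ∃ x y k k', [x, y] ∈ L2 ∧ K.Adj k k' ∧ F a = pr x (ι k) ∧ F b = pr y (ι k') := by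
      intro a b hab
      have := hF [a, b] hab
      rcases (hL3 _).1 this with ⟨x, y, hxy, h⟩ | ⟨x, y, k, k', hxy, hk, h⟩
      · simp only [List.map_cons, List.map_nil, List.cons.injEq, and_true] at h
        exact Or.inl ⟨x, y, hxy, h⟩
      · simp only [List.map_cons, List.map_nil, List.cons.injEq, and_true] at h
        exact Or.inr ⟨x, y, k, k', hxy, hk, h⟩
    have hpr : ∀ {x y : ℕ} {k k' : V}, pr x (ι k) = pr y (ι k') → k = k' := by
      intro x y k k' h
      have h3 : Nat.pair x (ι k) = Nat.pair y (ι k') := by unfold pr at h; omega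
      exact hι (Nat.pair_eq_pair.1 h3).2
    -- the vertices of `K` that are used
    let W : Finset V := Finset.univ.filter fun k => ∃ a ∈ letters L2, ∃ x, F a = pr x (ι k)
    have hWcard : W.card ≤ (letters L2).card := by
      have h3 : ∀ k ∈ W, ∃ a ∈ letters L2, ∃ x, F a = pr x (ι k) := fun k hk =>
        (Finset.mem_filter.1 hk).2
      choose! f hf1 x hf2 using h3
      refine Finset.card_le_card_of_injOn f (fun k hk => hf1 k hk) ?_
      intro k hk k' hk' hkk
      have h4 := hf2 k hk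
      rw [hkk, hf2 k' hk'] at h4
      exact (hpr h4).symm
    obtain ⟨col⟩ := small_two hcyc W hWcard
    have hex : ∀ a, (∃ k : V, k ∈ W ∧ ∃ x, F a = pr x (ι k)) ∨
        ¬ ∃ k : V, k ∈ W ∧ ∃ x, F a = pr x (ι k) := fun a => em _
    let Φ : ℕ → ℕ := fun a => if h : ∃ k : V, k ∈ W ∧ ∃ x, F a = pr x (ι k) then
      (if col ⟨h.choose, h.choose_spec.1⟩ = 0 then θ 0 else θ 1) else F a / 2
    have hΦ : ∀ a x k, F a = pr x (ι k) → ∀ hk : k ∈ W,
        Φ a = if col ⟨k, hk⟩ = 0 then θ 0 else θ 1 := by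
      intro a x k hF' hk
      have h3 : ∃ k : V, k ∈ W ∧ ∃ x, F a = pr x (ι k) := ⟨k, hk, x, hF'⟩
      have h4 : h3.choose = k := by
        obtain ⟨x', hx'⟩ := h3.choose_spec.2
        exact (hpr (hF'.symm.trans hx')).symm
      simp only [Φ, dif_pos h3]
      congr 3
      exact Subtype.ext h4
    have hΦ' : ∀ a x, F a = 2 * x → Φ a = x := by
      intro a x hx
      have h3 : ¬ ∃ k : V, k ∈ W ∧ ∃ x, F a = pr x (ι k) := by
        rintro ⟨k, _, y, hy⟩
        unfold pr at hy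
        omega
      simp only [Φ, dif_neg h3, hx]
      omega
    refine ⟨Φ, fun w hw => ?_⟩
    obtain ⟨a, b, rfl⟩ := List.length_eq_two.1 (h2 w hw)
    change [Φ a, Φ b] ∈ L1
    have ha : a ∈ letters L2 := mem_letters.2 ⟨_, hw, by simp⟩
    have hb : b ∈ letters L2 := mem_letters.2 ⟨_, hw, by simp⟩
    rcases key a b hw with ⟨x, y, hxy, h3, h4⟩ | ⟨x, y, k, k', _, hk, h3, h4⟩
    · rw [hΦ' a x h3, hΦ' b y h4]
      exact hxy
    · have hkW : k ∈ W := Finset.mem_filter.2 ⟨Finset.mem_univ _, a, ha, x, h3⟩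
      have hkW' : k' ∈ W := Finset.mem_filter.2 ⟨Finset.mem_univ _, b, hb, y, h4⟩
      rw [hΦ a x k h3 hkW, hΦ b y k' h4 hkW']
      have hne : col ⟨k, hkW⟩ ≠ col ⟨k', hkW'⟩ := col.valid hk
      generalize col ⟨k, hkW⟩ = i at hne
      generalize col ⟨k', hkW'⟩ = j at hne
      fin_cases i <;> fin_cases j <;> simp_all

end Pool.Agent.R572.GF
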